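import Mathlib
import Pool.Agent.Y733.VR.Ht

set_option autoImplicit false

/-!
The duplication map of the elliptic curve `y² = t (t - 1) (t - l)` on the `t`-line: it preserves the
class of `t (t - 1) (t - l)` modulo squares, and multiplies heights by `4`.
-/

namespace Pool.Agent.J4.H47.SC

open Height Module NumberField MvPolynomial Pool.Agent.Y733.VR

section
variable {K : Type} [Field K]

/-- `t (t - 1) (t - l)` -/
def E1 (l t : K) : K := t * (t - 1) * (t - l)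

/-- the duplication map -/
def dup (l t : K) : K := (t ^ 2 - l) ^ 2 / (4 * E1 l t)

lemma E1_dup [CharZero K] {l t : K} (h : E1 l t ≠ 0) :
    E1 l (dup l t) = E1 l t *
      (((t ^ 2 - l) * (t ^ 2 - 2 * t + l) * (t ^ 2 - 2 * l * t + l)) / (8 * E1 l t ^ 2)) ^ 2 := by
  have h4 : (4 * E1 l t : K) ≠ 0 := mul_ne_zero (by norm_num) h
  have e1 : dup l t - 1 = (t ^ 2 - 2 * t + l) ^ 2 / (4 * E1 l t) := by
    unfold dup
    rw [eq_div_iff h4, sub_mul, div_mul_cancel₀ _ h4]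
    unfold E1
    ring
  have e2 : dup l t - l = (t ^ 2 - 2 * l * t + l) ^ 2 / (4 * E1 l t) := by
    unfold dup
    rw [eq_div_iff h4, sub_mul, div_mul_cancel₀ _ h4]
    unfold E1
    ring
  have e3 : E1 l (dup l t) = dup l t * (dup l t - 1) * (dup l t - l) := rfl
  rw [e3, e1, e2]
  unfold dup
  field_simp
  ring

end

variable {K : Type} [Field K] [NumberField K]

lemma E1_ne {l t : K} {B : ℝ} (hB : 0 ≤ B) (hl : hh l ≤ B) (ht : B < hh t) : E1 l t ≠ 0 := by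
  unfold E1
  have h0 : hh (0 : K) = 0 := by unfold hh; rw [logHeight₁_zero, zero_div]
  have h1 : hh (1 : K) = 0 := hh_one
  refine mul_ne_zero (mul_ne_zero ?_ ?_) ?_
  · rintro rfl
    linarith
  · intro h
    rw [sub_eq_zero.1 h] at ht
    linarith
  · intro h
    rw [sub_eq_zero.1 h] at ht
    linarith

/-- duplication multiplies heights by four -/
lemma dup_height {l : K} (h0 : l ≠ 0) (h1 : l ≠ 1) :
    ∃ C : ℝ, 0 ≤ C ∧ ∀ t : K, E1 l t ≠ 0 → 4 * hh t ≤ hh (dup l t) + C := by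
  classical
  set D : K := l ^ 2 * (l - 1) ^ 2 with hD
  set D2 : K := (l - 1) ^ 2 with hD2
  have h1' : l - 1 ≠ 0 := sub_ne_zero.2 h1
  have hD0 : D ≠ 0 := mul_ne_zero (pow_ne_zero _ h0) (pow_ne_zero _ h1')
  have hD20 : D2 ≠ 0 := pow_ne_zero _ h1'
  -- monomials of degree 3
  let mo (c3 c2 c1 c0 : K) : MvPolynomial (Fin 2) K :=
    C c3 * X 0 ^ 3 + C c2 * (X 0 ^ 2 * X 1) + C c1 * (X 0 * X 1 ^ 2) + C c0 * X 1 ^ 3
  have hmo : ∀ c3 c2 c1 c0 : K, (mo c3 c2 c1 c0).IsHomogeneous 3 := by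
    intro c3 c2 c1 c0
    have e0 : (X 0 : MvPolynomial (Fin 2) K).IsHomogeneous 1 := isHomogeneous_X _ _
    have e1 : (X 1 : MvPolynomial (Fin 2) K).IsHomogeneous 1 := isHomogeneous_X _ _
    have a0 : (C c3 * X 0 ^ 3 : MvPolynomial (Fin 2) K).IsHomogeneous 3 := by
      simpa using (isHomogeneous_C (Fin 2) c3).mul (e0.pow 3)
    have a1 : (C c2 * (X 0 ^ 2 * X 1) : MvPolynomial (Fin 2) K).IsHomogeneous 3 := by
      simpa using (isHomogeneous_C (Fin 2) c2).mul ((e0.pow 2).mul e1)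
    have a2 : (C c1 * (X 0 * X 1 ^ 2) : MvPolynomial (Fin 2) K).IsHomogeneous 3 := by
      simpa using (isHomogeneous_C (Fin 2) c1).mul (e0.mul (e1.pow 2))
    have a3 : (C c0 * X 1 ^ 3 : MvPolynomial (Fin 2) K).IsHomogeneous 3 := by
      simpa using (isHomogeneous_C (Fin 2) c0).mul (e1.pow 3)
    exact ((a0.add a1).add a2).add a3
  let q : Fin 2 × Fin 2 → MvPolynomial (Fin 2) K := fun a =>
    if a = (0, 0) then mo 1 (2 * l * (l + 1) / D2) (-3 * l ^ 2 / D2) 0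
    else if a = (0, 1) then mo (-(l ^ 2 + l) / 2 / D2) (-(5 / 4) * l ^ 2 / D2)
      ((l ^ 3 + l ^ 2) / 4 / D2) ((3 / 4) * l ^ 3 / D2)
    else if a = (1, 0) then mo 0 (-3 / D) ((2 * l + 2) / D) ((l - 1) ^ 2 / D)
    else mo ((3 / 4) / D) ((l + 1) / 4 / D) (-(5 / 4) * l / D) (-(l ^ 2 + l) / 2 / D)
  have hq : ∀ a, (q a).IsHomogeneous 3 := by
    intro a
    simp only [q]
    split_ifs <;> exact hmo _ _ _ _
  obtain ⟨C0, hC0⟩ := logHeight_eval_ge' (N := 4) hq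
  let p : Fin 2 → MvPolynomial (Fin 2) K :=
    ![(X 0 ^ 2 - C l * X 1 ^ 2) ^ 2, C 4 * (X 0 * X 1 * (X 0 - X 1) * (X 0 - C l * X 1))]
  refine ⟨|C0| / finrank ℚ K, div_nonneg (abs_nonneg _) deg_pos.le, fun t ht => ?_⟩
  have hp0 : (p 0).eval ![t, 1] = (t ^ 2 - l) ^ 2 := by simp [p]
  have hp1 : (p 1).eval ![t, 1] = 4 * E1 l t := by
    simp [p]
    unfold E1
    ring
  have hmoe : ∀ c3 c2 c1 c0 : K, (mo c3 c2 c1 c0).eval ![t, 1] =
      c3 * t ^ 3 + c2 * t ^ 2 + c1 * t + c0 := by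
    intro c3 c2 c1 c0
    simp [mo]
  have hk : ∀ k : Fin 2, ∑ j, (q (k, j)).eval ![t, 1] * (p j).eval ![t, 1] =
      (![t, 1] k) ^ (3 + 4) := by
    intro k
    rw [Fin.sum_univ_two, hp0, hp1]
    fin_cases k
    · have q00 : q (0, 0) = mo 1 (2 * l * (l + 1) / D2) (-3 * l ^ 2 / D2) 0 := by simp [q]
      have q01 : q (0, 1) = mo (-(l ^ 2 + l) / 2 / D2) (-(5 / 4) * l ^ 2 / D2)
          ((l ^ 3 + l ^ 2) / 4 / D2) ((3 / 4) * l ^ 3 / D2) := by simp [q]
      change (q (0, 0)).eval ![t, 1] * _ + (q (0, 1)).eval ![t, 1] * _ = t ^ (3 + 4)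
      rw [q00, q01, hmoe, hmoe]
      unfold E1
      field_simp
      rw [hD2]
      ring
    · have q10 : q (1, 0) = mo 0 (-3 / D) ((2 * l + 2) / D) ((l - 1) ^ 2 / D) := by simp [q]
      have q11 : q (1, 1) = mo ((3 / 4) / D) ((l + 1) / 4 / D) (-(5 / 4) * l / D)
          (-(l ^ 2 + l) / 2 / D) := by simp [q]
      change (q (1, 0)).eval ![t, 1] * _ + (q (1, 1)).eval ![t, 1] * _ = 1 ^ (3 + 4)
      rw [q10, q11, hmoe, hmoe, one_pow]
      unfold E1
      field_simp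
      rw [hD]
      ring
  have h := hC0 p hk
  have e : (fun j => (p j).eval ![t, 1]) = ![(t ^ 2 - l) ^ 2, 4 * E1 l t] := by
    funext j
    fin_cases j
    · exact hp0
    · exact hp1
  rw [e, ← logHeight₁_div_eq_logHeight ((t ^ 2 - l) ^ 2) (4 * E1 l t),
    ← logHeight₁_eq_logHeight t] at h
  change C0 + (4 : ℕ) * logHeight₁ t ≤ logHeight₁ (dup l t) at h
  unfold hh
  rw [← mul_div_assoc, ← add_div]
  refine div_le_div_of_nonneg_right ?_ deg_pos.le
  have := neg_abs_le C0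
  push_cast at h
  linarith

/-- an orbit of the duplication map with heights tending to infinity -/
theorem orbit {l : K} (h0 : l ≠ 0) (h1 : l ≠ 1) :
    ∃ c : K, c ≠ 0 ∧ ∀ B : ℝ, ∃ t s : K, B ≤ hh t ∧ s ≠ 0 ∧ E1 l t = c * s ^ 2 ∧ E1 l t ≠ 0 := by
  obtain ⟨C, hC, hdup⟩ := dup_height h0 h1
  set B0 : ℝ := hh l + C + 1 with hB0
  have hl0 := hh_nonneg l
  -- a starting point
  obtain ⟨t0, ht0⟩ : ∃ t0 : K, B0 < hh t0 := by
    obtain ⟨n, hn⟩ := exists_nat_gt (Real.exp B0)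
    have hn0 : n ≠ 0 := by
      rintro rfl
      have := Real.exp_pos B0
      push_cast at hn
      linarith
    have : NeZero n := ⟨hn0⟩
    refine ⟨(n : K), ?_⟩
    rw [hh_natCast]
    rw [Real.lt_log_iff_exp_lt (by exact_mod_cast Nat.pos_of_ne_zero hn0)]
    exact hn
  have key : ∀ m : ℕ, ∃ t s : K, B0 + m < hh t ∧ s ≠ 0 ∧ E1 l t = E1 l t0 * s ^ 2 := by
    intro m
    induction m with
    | zero => exact ⟨t0, 1, by simpa using ht0, one_ne_zero, by ring⟩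
    | succ m ih =>
      obtain ⟨t, s, h2, h3, h4⟩ := ih
      have hm : (0 : ℝ) ≤ m := Nat.cast_nonneg m
      have hne : E1 l t ≠ 0 := E1_ne (B := B0) (by linarith) (by linarith) (by linarith)
      have h5 := hdup t hne
      have h6 : B0 + (m + 1 : ℕ) < hh (dup l t) := by
        push_cast
        linarith
      have hne' : E1 l (dup l t) ≠ 0 :=
        E1_ne (B := B0) (by linarith) (by linarith) (by push_cast at h6; linarith)
      have h7 := E1_dup hne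
      refine ⟨dup l t, s * (((t ^ 2 - l) * (t ^ 2 - 2 * t + l) * (t ^ 2 - 2 * l * t + l)) /
        (8 * E1 l t ^ 2)), h6, mul_ne_zero h3 ?_, ?_⟩
      · intro h8
        rw [h8] at h7
        exact hne' (by rw [h7]; ring)
      · rw [h7, h4]
        ring
  refine ⟨E1 l t0, E1_ne (B := B0) (by linarith) (by linarith) ht0, fun B => ?_⟩
  obtain ⟨m, hm⟩ := exists_nat_ge B
  obtain ⟨t, s, h2, h3, h4⟩ := key m
  refine ⟨t, s, by linarith, h3, h4, ?_⟩
  have hm0 : (0 : ℝ) ≤ m := Nat.cast_nonneg m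
  exact E1_ne (B := B0) (by linarith) (by linarith) (by linarith)

end Pool.Agent.J4.H47.SC
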