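import Mathlib
import Pool.Agent.Y733.VR.Ht
import Pool.Agent.W232.VA.D

set_option autoImplicit false

/-!
The values of a polynomial of degree at most `2 e` at `t`, up to squares, are integers of norm at
most `H(t) ^ (2 e)`.
-/

namespace Pool.Agent.J4.H47.SC

open Height Module NumberField Polynomial Pool.Agent.Y733.VR

variable {K : Type} [Field K] [NumberField K]

/-- a common denominator -/
lemma common_den (m : ℕ) (c : ℕ → K) : ∃ N : ℕ, 0 < N ∧ ∀ i < m, IsIntegral ℤ ((N : K) * c i) := by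
  classical
  have h1 : ∀ x : K, ∃ N : ℕ, 0 < N ∧ IsIntegral ℤ ((N : K) * x) := by
    intro x
    obtain ⟨b, hb0, hbx⟩ :=
      ((IsFractionRing.isAlgebraic_iff ℤ ℚ K).2
        (Algebra.IsAlgebraic.isAlgebraic x)).exists_integral_multiple
    refine ⟨b.natAbs, Int.natAbs_pos.2 hb0, ?_⟩
    have e : ((b.natAbs : ℕ) : K) = ((|b| : ℤ) : K) := by
      rw [← Int.natCast_natAbs, Int.cast_natCast]
    rw [e]
    rcases abs_choice b with h | h
    · rw [h]
      have : (b : K) * x = b • x := by rw [Algebra.smul_def, eq_intCast]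
      rwa [this]
    · rw [h]
      have : ((-b : ℤ) : K) * x = -(b • x) := by
        rw [Algebra.smul_def, eq_intCast]
        push_cast
        ring
      rw [this]
      exact hbx.neg
  choose N hN hNx using fun i => h1 (c i)
  refine ⟨∏ i ∈ Finset.range m, N i, Finset.prod_pos fun i _ => hN i, fun i hi => ?_⟩
  rw [← Finset.mul_prod_erase _ _ (Finset.mem_range.2 hi)]
  push_cast
  have : (N i : K) * (∏ j ∈ (Finset.range m).erase i, (N j : K)) * c i =
      ((∏ j ∈ (Finset.range m).erase i, N j : ℕ) : K) * ((N i : K) * c i) := by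
    push_cast
    ring
  rw [this]
  have h2 : IsIntegral ℤ ((∏ j ∈ (Finset.range m).erase i, N j : ℕ) : K) := by
    have h3 := isIntegral_algebraMap (R := ℤ) (A := K)
      (x := ((∏ j ∈ (Finset.range m).erase i, N j : ℕ) : ℤ))
    have h4 : algebraMap ℤ K ((∏ j ∈ (Finset.range m).erase i, N j : ℕ) : ℤ) =
        ((∏ j ∈ (Finset.range m).erase i, N j : ℕ) : K) := by
      rw [eq_intCast]
      push_cast
      rfl
    rwa [h4] at h3
  exact h2.mul (hNx i)

/-- bound of the norm by the archimedean absolute values -/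
lemma ln_le (a : K) (ha : a ≠ 0) (X : ℝ) (h : ∀ w : InfinitePlace K, w a ≤ Real.exp X) :
    ln a ≤ X := by
  unfold ln
  rw [div_le_iff₀ deg_pos]
  have h1 : |(Algebra.norm ℚ a : ℝ)| = ((|Algebra.norm ℚ a| : ℚ) : ℝ) := by push_cast; rfl
  rw [h1, ← InfinitePlace.prod_eq_abs_norm a, Real.log_prod]
  · have h2 : ∀ w : InfinitePlace K, Real.log (w a ^ w.mult) ≤ w.mult * X := by
      intro w
      rw [Real.log_pow]
      refine mul_le_mul_of_nonneg_left ?_ (Nat.cast_nonneg _)
      rw [Real.log_le_iff_le_exp (w.pos_iff.2 ha)]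
      exact h w
    refine (Finset.sum_le_sum fun w _ => h2 w).trans ?_
    rw [← Finset.sum_mul, mul_comm]
    refine le_of_eq ?_
    congr 1
    exact_mod_cast InfinitePlace.sum_mult_eq (K := K)
  · intro v _
    exact pow_ne_zero _ (v.pos_iff.2 ha).ne'

theorem value_up_to_squares (h : K[X]) (e : ℕ) (hh' : h.natDegree ≤ 2 * e) (c : K) :
    ∃ C : ℝ, ∀ t : K, c * h.eval t ≠ 0 → ∃ (a : 𝓞 K) (s : K), a ≠ 0 ∧ s ≠ 0 ∧
      c * h.eval t = (a : K) * s ^ 2 ∧ ln (a : K) ≤ 2 * e * hh t + C := by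
  classical
  obtain ⟨N, hN, hint⟩ := common_den (2 * e + 1) fun i => c * h.coeff i
  obtain ⟨C0, hC0, hrep⟩ := Pool.Agent.W232.VA.rep K (n := 1)
  let b : ℕ → 𝓞 K := fun i => if hi : i < 2 * e + 1 then ⟨(N : K) * (c * h.coeff i), hint i hi⟩ else 0
  have hb : ∀ i < 2 * e + 1, ((b i : 𝓞 K) : K) = (N : K) * (c * h.coeff i) := by
    intro i hi
    have : b i = ⟨(N : K) * (c * h.coeff i), hint i hi⟩ := dif_pos hi
    rw [this]
    rfl
  -- bound for the coefficients
  set Mb : ℝ := ∑ i ∈ Finset.range (2 * e + 1), ∑ w : InfinitePlace K, w ((b i : 𝓞 K) : K) with hMb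
  have hMb0 : 0 ≤ Mb := Finset.sum_nonneg fun i _ => Finset.sum_nonneg fun w _ => apply_nonneg _ _
  set A : ℝ := N * (Mb + 1) * (C0 ^ (2 * e)) with hA
  have hNr : (0 : ℝ) < N := by exact_mod_cast hN
  have hA0 : 0 < A := by positivity
  refine ⟨Real.log A, fun t ht => ?_⟩
  have hx : ![t, (1 : K)] ≠ 0 := by
    intro h0
    have := congrFun h0 1
    simp at this
  obtain ⟨τ, hτ, y, hy, hyw⟩ := hrep ![t, 1] hx
  have hy0 : ((y 0 : 𝓞 K) : K) = τ * t := by simpa using hy 0
  have hy1 : ((y 1 : 𝓞 K) : K) = τ := by simpa using hy 1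
  set a : 𝓞 K := (N : 𝓞 K) * ∑ i ∈ Finset.range (2 * e + 1), b i * y 0 ^ i * y 1 ^ (2 * e - i)
    with ha
  have hNK : (N : K) ≠ 0 := by exact_mod_cast hN.ne'
  have haK : ((a : 𝓞 K) : K) = (N : K) ^ 2 * τ ^ (2 * e) * (c * h.eval t) := by
    rw [ha, RingOfIntegers.coe_eq_algebraMap, map_mul, map_natCast, map_sum,
      eval_eq_sum_range' (Nat.lt_succ_of_le hh')]
    have : ∀ i ∈ Finset.range (2 * e + 1),
        algebraMap (𝓞 K) K (b i * y 0 ^ i * y 1 ^ (2 * e - i)) =
          (N : K) * τ ^ (2 * e) * (c * (h.coeff i * t ^ i)) := by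
      intro i hi
      have hi' := Finset.mem_range.1 hi
      rw [map_mul, map_mul, map_pow, map_pow, ← RingOfIntegers.coe_eq_algebraMap,
        ← RingOfIntegers.coe_eq_algebraMap, ← RingOfIntegers.coe_eq_algebraMap, hy0, hy1,
        hb i hi', mul_pow]
      have : τ ^ (2 * e) = τ ^ i * τ ^ (2 * e - i) := by
        rw [← pow_add]
        congr 1
        omega
      rw [this]
      ring
    rw [Finset.sum_congr rfl this, ← Finset.mul_sum, ← Finset.mul_sum]
    ring
  have hs : (N : K) * τ ^ e ≠ 0 := mul_ne_zero hNK (pow_ne_zero _ hτ)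
  have haK0 : ((a : 𝓞 K) : K) ≠ 0 := by
    rw [haK]
    exact mul_ne_zero (mul_ne_zero (pow_ne_zero _ hNK) (pow_ne_zero _ hτ)) ht
  refine ⟨a, ((N : K) * τ ^ e)⁻¹, ?_, inv_ne_zero hs, ?_, ?_⟩
  · intro h0
    rw [h0] at haK0
    exact haK0 (map_zero _)
  · rw [haK]
    have : (N : K) ^ 2 * τ ^ (2 * e) = ((N : K) * τ ^ e) ^ 2 := by ring
    rw [this]
    field_simp
  · refine (ln_le _ haK0 (Real.log A + 2 * e * hh t) fun w => ?_).trans (le_of_eq (by ring))
    set Y : ℝ := C0 * mulHeight ![t, (1 : K)] ^ (1 / (finrank ℚ K : ℝ)) with hY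
    have hmh : 0 < mulHeight ![t, (1 : K)] := mulHeight_pos _
    have hY0 : 0 < Y := mul_pos hC0 (Real.rpow_pos_of_pos hmh _)
    have hYe : mulHeight ![t, (1 : K)] ^ (1 / (finrank ℚ K : ℝ)) = Real.exp (hh t) := by
      rw [Real.rpow_def_of_pos hmh]
      congr 1
      unfold hh
      rw [logHeight₁_eq_logHeight, logHeight_eq_log_mulHeight]
      ring
    have h2 : w ((a : 𝓞 K) : K) ≤ N * ((Mb + 1) * Y ^ (2 * e)) := by
      rw [ha, RingOfIntegers.coe_eq_algebraMap, map_mul, map_mul, map_natCast,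
        InfinitePlace.map_natCast, map_sum]
      refine mul_le_mul_of_nonneg_left ?_ hNr.le
      refine (AbsoluteValue.sum_le w.1 _ _).trans ?_
      have h3 : ∀ i ∈ Finset.range (2 * e + 1),
          w (algebraMap (𝓞 K) K (b i * y 0 ^ i * y 1 ^ (2 * e - i))) ≤
            w ((b i : 𝓞 K) : K) * Y ^ (2 * e) := by
        intro i hi
        have hi' := Finset.mem_range.1 hi
        rw [map_mul, map_mul, map_pow, map_pow, map_mul, map_mul, map_pow, map_pow, mul_assoc]
        refine mul_le_mul_of_nonneg_left ?_ (apply_nonneg _ _)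
        have e1 : Y ^ (2 * e) = Y ^ i * Y ^ (2 * e - i) := by
          rw [← pow_add]
          congr 1
          omega
        rw [e1]
        exact mul_le_mul (pow_le_pow_left₀ (apply_nonneg _ _) (hyw w 0) _)
          (pow_le_pow_left₀ (apply_nonneg _ _) (hyw w 1) _) (pow_nonneg (apply_nonneg _ _) _)
          (pow_nonneg hY0.le _)
      refine (Finset.sum_le_sum h3).trans ?_
      rw [← Finset.sum_mul]
      refine mul_le_mul_of_nonneg_right ?_ (pow_nonneg hY0.le _)
      have : ∑ i ∈ Finset.range (2 * e + 1), w ((b i : 𝓞 K) : K) ≤ Mb := by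
        rw [hMb]
        refine Finset.sum_le_sum fun i _ => ?_
        exact Finset.single_le_sum (f := fun w : InfinitePlace K => w ((b i : 𝓞 K) : K))
          (fun w _ => apply_nonneg _ _) (Finset.mem_univ w)
      linarith
    refine h2.trans (le_of_eq ?_)
    rw [Real.exp_add, Real.exp_log hA0, hY, hYe, mul_pow, hA, ← Real.exp_nat_mul]
    push_cast
    ring

end Pool.Agent.J4.H47.SC
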