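import Mathlib
import Pool.Agent.J4.H47.SC.Dup
import Pool.Agent.J4.H47.SC.Nrm

set_option autoImplicit false

/-!
Points of a hyperelliptic curve with small discriminant.
-/

namespace Pool.Agent.J4.H47.SC

open Height Module NumberField Polynomial Pool.Agent.Y733.VR

variable {K : Type} [Field K] [NumberField K]

/-- a product of linear polynomials has small degree -/
lemma natDegree_prod_linear_le (s : Finset K) (u v : K → K) :
    (∏ a ∈ s, (C (u a) * X + C (v a))).natDegree ≤ s.card := by
  refine (natDegree_prod_le _ _).trans ?_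
  refine (Finset.sum_le_sum fun a _ => natDegree_linear_le).trans ?_
  simp

open scoped Classical in
/-- the polynomial as a product over its roots -/
lemma eval_eq_prod_roots (f : K[X]) (hsep : f.Separable) (hspl : f.Splits) (x : K) :
    f.eval x = f.leadingCoeff * ∏ a ∈ f.roots.toFinset, (x - a) := by
  classical
  have h := hspl.eq_prod_roots
  have hnd : f.roots.Nodup := nodup_roots hsep
  conv_lhs => rw [h]
  rw [eval_mul, eval_C, eval_multiset_prod, Multiset.map_map]
  congr 1
  rw [Finset.prod_eq_multiset_prod, Multiset.toFinset_val, Multiset.dedup_eq_self.2 hnd]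
  congr 1
  refine Multiset.map_congr rfl fun a _ => ?_
  simp

open scoped Classical in
lemma card_roots (f : K[X]) (hsep : f.Separable) (hspl : f.Splits) :
    f.roots.toFinset.card = f.natDegree := by
  classical
  rw [Multiset.toFinset_card_of_nodup (nodup_roots hsep)]
  exact hspl.natDegree_eq_card_roots.symm

/-- reduction to the form `y² = t (t - 1) (t - l) h(t)` -/
theorem reduce (f : K[X]) (hsep : f.Separable) (hspl : f.Splits) (hdeg : 5 ≤ f.natDegree) :
    ∃ (l : K) (h : K[X]) (φ den : K → K) (C : ℝ), l ≠ 0 ∧ l ≠ 1 ∧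
      h.natDegree ≤ 2 * ((f.natDegree - 1) / 2 - 1) ∧
      ∀ t : K, C < hh t → den t ≠ 0 ∧ f.eval (φ t) * den t ^ 2 = E1 l t * h.eval t ∧
        hh t ≤ hh (φ t) + C := by
  classical
  set R : Finset K := f.roots.toFinset with hR
  have hcard : R.card = f.natDegree := card_roots f hsep hspl
  have heval := eval_eq_prod_roots f hsep hspl
  rw [← hR] at heval
  obtain ⟨a1, ha1⟩ : R.Nonempty := Finset.card_pos.1 (by omega)
  obtain ⟨a2, ha2⟩ : (R.erase a1).Nonempty := Finset.card_pos.1 (by
    rw [Finset.card_erase_of_mem ha1]; omega)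
  have hc1 : (R.erase a1).card = f.natDegree - 1 := by rw [Finset.card_erase_of_mem ha1, hcard]
  have hc2 : ((R.erase a1).erase a2).card = f.natDegree - 2 := by
    rw [Finset.card_erase_of_mem ha2, hc1]; omega
  obtain ⟨a3, ha3⟩ : ((R.erase a1).erase a2).Nonempty := Finset.card_pos.1 (by omega)
  have hc3 : (((R.erase a1).erase a2).erase a3).card = f.natDegree - 3 := by
    rw [Finset.card_erase_of_mem ha3, hc2]; omega
  have h21 : a2 ≠ a1 := (Finset.mem_erase.1 ha2).1
  have h32 : a3 ≠ a2 := (Finset.mem_erase.1 ha3).1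
  have h31 : a3 ≠ a1 := (Finset.mem_erase.1 (Finset.mem_erase.1 ha3).2).1
  have s21 : a2 - a1 ≠ 0 := sub_ne_zero.2 h21
  have s31 : a3 - a1 ≠ 0 := sub_ne_zero.2 h31
  have s32 : a3 - a2 ≠ 0 := sub_ne_zero.2 h32
  rcases Nat.even_or_odd f.natDegree with hev | hodd
  · -- even degree
    obtain ⟨a4, ha4⟩ : (((R.erase a1).erase a2).erase a3).Nonempty :=
      Finset.card_pos.1 (by omega)
    have hc4 : ((((R.erase a1).erase a2).erase a3).erase a4).card = f.natDegree - 4 := by
      rw [Finset.card_erase_of_mem ha4, hc3]; omega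
    have h43 : a4 ≠ a3 := (Finset.mem_erase.1 ha4).1
    have h42 : a4 ≠ a2 := (Finset.mem_erase.1 (Finset.mem_erase.1 ha4).2).1
    have h41 : a4 ≠ a1 :=
      (Finset.mem_erase.1 (Finset.mem_erase.1 (Finset.mem_erase.1 ha4).2).2).1
    have s43 : a4 - a3 ≠ 0 := sub_ne_zero.2 h43
    have s42 : a4 - a2 ≠ 0 := sub_ne_zero.2 h42
    have s41 : a4 - a1 ≠ 0 := sub_ne_zero.2 h41
    obtain ⟨g, hg⟩ : ∃ g, f.natDegree = 2 * g + 2 := by
      obtain ⟨g, hg⟩ := hev
      exact ⟨g - 1, by omega⟩
    set κ : K := (a2 - a4) / (a2 - a1) with hκ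
    have hκ' : κ * (a2 - a1) = a2 - a4 := div_mul_cancel₀ _ s21
    have hκ0 : κ ≠ 0 := div_ne_zero (by
      intro h; apply s42; linear_combination -h) s21
    set l : K := κ * (a1 - a3) / (a4 - a3) with hl
    have hl' : l * (a4 - a3) = κ * (a1 - a3) := div_mul_cancel₀ _ s43
    set h : K[X] := C (f.leadingCoeff * (a4 - a1) * (a4 - a2) * (a4 - a3) * (κ * (a4 - a1))) *
      ∏ a ∈ (((R.erase a1).erase a2).erase a3).erase a4,
        (C (a4 - a) * X + C (-(κ * (a1 - a)))) with hh'
    refine ⟨l, h, fun t => (a4 * t - κ * a1) / (t - κ), fun t => (t - κ) ^ (g + 1),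
      hh κ + (hh (a4 - a1) + hh a4 + Real.log 2 + Real.log 2), ?_, ?_, ?_, ?_⟩
    · exact div_ne_zero (mul_ne_zero hκ0 (by intro h; apply s31; linear_combination -h)) s43
    · intro h1
      rw [h1, one_mul] at hl'
      have e : (a4 - a3) * (a2 - a1) = (a2 - a4) * (a1 - a3) := by
        rw [hl', ← hκ']; ring
      have e2 : (a4 - a1) * (a3 - a2) = 0 := by linear_combination -e
      exact mul_ne_zero s41 s32 e2
    · refine (natDegree_C_mul_le _ _).trans ((natDegree_prod_linear_le _ _ _).trans ?_)
      rw [hc4]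
      omega
    · intro t ht
      have n1 := hh_nonneg (a4 - a1)
      have n2 := hh_nonneg a4
      have n3 : (0 : ℝ) < Real.log 2 := Real.log_pos (by norm_num)
      have htκ : t - κ ≠ 0 := by
        intro h0
        rw [sub_eq_zero.1 h0] at ht
        linarith
      refine ⟨pow_ne_zero _ htκ, ?_, ?_⟩
      · have lin : ∀ a : K, ((a4 * t - κ * a1) / (t - κ) - a) * (t - κ) =
            (a4 - a) * t + -(κ * (a1 - a)) := by
          intro a
          rw [sub_mul, div_mul_cancel₀ _ htκ]
          ring
        have e1 : f.eval ((a4 * t - κ * a1) / (t - κ)) * ((t - κ) ^ (g + 1)) ^ 2 =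
            f.leadingCoeff * ∏ a ∈ R, ((a4 - a) * t + -(κ * (a1 - a))) := by
          rw [heval, mul_assoc]
          congr 1
          have : ((t - κ) ^ (g + 1)) ^ 2 = ∏ a ∈ R, (t - κ) := by
            rw [Finset.prod_const, hcard, hg, ← pow_mul]
            congr 1
            ring
          rw [this, ← Finset.prod_mul_distrib]
          exact Finset.prod_congr rfl fun a _ => lin a
        rw [e1, ← Finset.mul_prod_erase _ _ ha1, ← Finset.mul_prod_erase _ _ ha2,
          ← Finset.mul_prod_erase _ _ ha3, ← Finset.mul_prod_erase _ _ ha4, hh']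
        rw [eval_mul, eval_C, eval_prod]
        simp only [eval_add, eval_mul, eval_C, eval_X]
        set Pr : K := ∏ a ∈ (((R.erase a1).erase a2).erase a3).erase a4,
          ((a4 - a) * t + -(κ * (a1 - a))) with hPr
        have f1 : (a4 - a1) * t + -(κ * (a1 - a1)) = (a4 - a1) * t := by ring
        have f2 : (a4 - a2) * t + -(κ * (a1 - a2)) = (a4 - a2) * (t - 1) := by
          linear_combination hκ'
        have f3 : (a4 - a3) * t + -(κ * (a1 - a3)) = (a4 - a3) * (t - l) := by
          linear_combination hl'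
        have f4 : (a4 - a4) * t + -(κ * (a1 - a4)) = κ * (a4 - a1) := by ring
        rw [f1, f2, f3, f4]
        unfold E1
        ring
      · -- heights
        set x : K := (a4 * t - κ * a1) / (t - κ) with hx
        have hx4 : x - a4 ≠ 0 := by
          intro h0
          have : (x - a4) * (t - κ) = κ * (a4 - a1) := by
            rw [hx, sub_mul, div_mul_cancel₀ _ htκ]
            ring
          rw [h0, zero_mul] at this
          exact mul_ne_zero hκ0 s41 this.symm
        have ht' : t = κ * (1 + (a4 - a1) / (x - a4)) := by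
          have : (x - a4) * (t - κ) = κ * (a4 - a1) := by
            rw [hx, sub_mul, div_mul_cancel₀ _ htκ]
            ring
          field_simp
          linear_combination this
        have b1 := hh_mul_le κ (1 + (a4 - a1) / (x - a4))
        rw [← ht'] at b1
        have b2 := hh_add_le 1 ((a4 - a1) / (x - a4))
        have b3 := hh_div_le (a4 - a1) (x - a4)
        have b4 := hh_sub_le x a4
        have b5 : hh (1 : K) = 0 := hh_one
        linarith
  · -- odd degree
    obtain ⟨g, hg⟩ := hodd
    set h : K[X] := C (f.leadingCoeff * (a2 - a1) ^ 3) *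
      ∏ a ∈ ((R.erase a1).erase a2).erase a3, (C (a2 - a1) * X + C (a1 - a)) with hh'
    refine ⟨(a3 - a1) / (a2 - a1), h, fun t => a1 + (a2 - a1) * t, fun _ => 1,
      hh a1 + hh (a2 - a1) + Real.log 2, div_ne_zero s31 s21, ?_, ?_, ?_⟩
    · intro h1
      rw [div_eq_one_iff_eq s21] at h1
      apply s32
      linear_combination h1
    · refine (natDegree_C_mul_le _ _).trans ((natDegree_prod_linear_le _ _ _).trans ?_)
      rw [hc3]
      omega
    · intro t ht
      refine ⟨one_ne_zero, ?_, ?_⟩
      · rw [one_pow, mul_one, heval, ← Finset.mul_prod_erase _ _ ha1,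
          ← Finset.mul_prod_erase _ _ ha2, ← Finset.mul_prod_erase _ _ ha3, hh']
        rw [eval_mul, eval_C, eval_prod]
        simp only [eval_add, eval_mul, eval_C, eval_X]
        have e : ∏ a ∈ ((R.erase a1).erase a2).erase a3, (a1 + (a2 - a1) * t - a) =
            ∏ a ∈ ((R.erase a1).erase a2).erase a3, ((a2 - a1) * t + (a1 - a)) :=
          Finset.prod_congr rfl fun a _ => by ring
        rw [e]
        unfold E1
        field_simp
        ring
      · have b1 := hh_div_le (a1 + (a2 - a1) * t - a1) (a2 - a1)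
        have b2 := hh_sub_le (a1 + (a2 - a1) * t) a1
        have e : (a1 + (a2 - a1) * t - a1) / (a2 - a1) = t := by
          field_simp
          ring
        rw [e] at b1
        linarith

/-- **Points with small discriminant on a hyperelliptic curve.** -/
theorem curve (f : K[X]) (hsep : f.Separable) (hspl : f.Splits) (hdeg : 5 ≤ f.natDegree) :
    ∃ C : ℝ, ∀ B : ℝ, ∃ (x : K) (a : 𝓞 K) (s : K), B ≤ hh x ∧ a ≠ 0 ∧ s ≠ 0 ∧
      f.eval x = (a : K) * s ^ 2 ∧
      ln (a : K) ≤ 2 * (((f.natDegree - 1) / 2 - 1 : ℕ) : ℝ) * hh x + C := by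
  classical
  obtain ⟨l, h, φ, den, C1, hl0, hl1, hdeg', hred⟩ := reduce f hsep hspl hdeg
  obtain ⟨c, hc, horb⟩ := orbit hl0 hl1
  set e : ℕ := (f.natDegree - 1) / 2 - 1 with he
  obtain ⟨C2, hval⟩ := value_up_to_squares h e hdeg' c
  -- the roots of `f` have bounded height
  have hf0 : f ≠ 0 := by
    rintro rfl
    simp at hdeg
  set B1 : ℝ := ∑ a ∈ f.roots.toFinset, hh a with hB1
  refine ⟨2 * e * |C1| + C2, fun B => ?_⟩
  obtain ⟨t, s, ht, hs, hE, hE0⟩ := horb (max B B1 + 1 + |C1|)
  have hC1 := le_abs_self C1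
  have hC1' := abs_nonneg C1
  have hm1 := le_max_left B B1
  have hm2 := le_max_right B B1
  have hB10 : 0 ≤ B1 := Finset.sum_nonneg fun a _ => hh_nonneg a
  obtain ⟨hd, heq, hht⟩ := hred t (by linarith)
  have hx : B1 < hh (φ t) := by linarith
  have hfx : f.eval (φ t) ≠ 0 := by
    intro h0
    have hmem : φ t ∈ f.roots.toFinset := by
      rw [Multiset.mem_toFinset, mem_roots hf0]
      exact h0
    have := Finset.single_le_sum (f := fun a => hh a) (fun a _ => hh_nonneg a) hmem
    linarith
  have hch : c * h.eval t ≠ 0 := by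
    intro h0
    have : f.eval (φ t) * den t ^ 2 = 0 := by
      rw [heq, hE]
      linear_combination (s ^ 2) * h0
    exact mul_ne_zero hfx (pow_ne_zero _ hd) this
  obtain ⟨a, s', ha, hs', haeq, hln⟩ := hval t hch
  refine ⟨φ t, a, s * s' / den t, by linarith, ha, div_ne_zero (mul_ne_zero hs hs') hd, ?_, ?_⟩
  · have e1 : f.eval (φ t) = c * h.eval t * s ^ 2 / den t ^ 2 := by
      rw [eq_div_iff (pow_ne_zero _ hd), heq, hE]
      ring
    rw [e1, haeq, div_pow, mul_pow]
    ring
  · have he0 : (0 : ℝ) ≤ 2 * e := by positivity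
    have : hh t ≤ hh (φ t) + |C1| := by linarith
    have h3 := mul_le_mul_of_nonneg_left this he0
    linarith

end Pool.Agent.J4.H47.SC
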