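import Mathlib
import Pool.Agent.Y733.VR.Tower

set_option autoImplicit false

/-!
The discriminant of an extension by several square roots.
-/

namespace Pool.Agent.J4.H47.SC

open Height Module NumberField Polynomial IntermediateField Pool.Agent.Y733.VR

lemma ln_ext {L M : Type} [Field L] [NumberField L] [Field M] [NumberField M] [Algebra L M]
    (x : L) : ln (algebraMap L M x) = ln x := by
  unfold ln
  have h1 : Algebra.norm ℚ (algebraMap L M x) = (Algebra.norm ℚ x) ^ finrank L M := by
    rw [← Algebra.norm_norm (R := ℚ) (S := L) (a := algebraMap L M x), Algebra.norm_algebraMap,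
      map_pow]
  rw [h1, finrank_tower L M]
  push_cast
  rw [abs_pow, Real.log_pow]
  have hL : (0 : ℝ) < finrank ℚ L := deg_pos
  have hLM : (0 : ℝ) < finrank L M := by
    have : FiniteDimensional L M := inferInstance
    exact_mod_cast finrank_pos
  field_simp

lemma ld_sqrt' {L M : Type} [Field L] [NumberField L] [Field M] [NumberField M] [Algebra L M]
    {u : 𝓞 L} (hu0 : u ≠ 0) {v : M} (hv : v ^ 2 = algebraMap L M (u : L)) (htop : L⟮v⟯ = ⊤) :
    ld M ≤ ld L + (Real.log 2 + ln (u : L) / 2) := by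
  have huL : (u : L) ≠ 0 := by
    intro h
    exact hu0 (RingOfIntegers.coe_eq_zero_iff.1 h)
  have hu' : algebraMap L M (u : L) ≠ 0 := by
    rwa [Ne, FaithfulSMul.algebraMap_eq_zero_iff]
  have hv0 : v ≠ 0 := by
    rintro rfl
    apply hu'
    rw [← hv]; ring
  have hvint : IsIntegral ℤ v := IsIntegral.of_pow (n := 2) two_pos (by
    rw [hv]; exact isIntegral_map _ u.2)
  set β : 𝓞 M := ⟨v, hvint⟩ with hβ
  have hroot : aeval β (X ^ 2 - C u : (𝓞 L)[X]) = 0 := by
    apply RingOfIntegers.coe_injective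
    rw [map_sub, map_pow, aeval_X, aeval_C, map_sub, map_pow, map_zero]
    have : algebraMap (𝓞 M) M (algebraMap (𝓞 L) (𝓞 M) u) = algebraMap L M (u : L) := rfl
    rw [this, ← hv]
    exact sub_self _
  have hder : aeval β (derivative (X ^ 2 - C u : (𝓞 L)[X])) = 2 * β := by
    simp
    left
    norm_num
  have h3 : ((2 * β : 𝓞 M) : M) = 2 * v := by
    push_cast
    rfl
  have h := ld_le L M β htop (X ^ 2 - C u) hroot (by
    rw [hder]
    intro h0
    have h1 : (2 * β : 𝓞 M) = 0 := h0
    have h2 : ((2 * β : 𝓞 M) : M) = 0 := by rw [h1]; rfl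
    rw [h3] at h2
    exact (mul_ne_zero two_ne_zero hv0) h2)
  rw [hder, h3] at h
  have h4 : ln (2 * v : M) = Real.log 2 + ln (u : L) / 2 := by
    have e1 : ln (v ^ 2) = 2 * ln v := by
      rw [sq, ln_mul _ _ hv0 hv0]
      ring
    rw [hv, ln_ext] at e1
    have e2 : ln (2 : M) = Real.log 2 := by
      have := ln_natCast (K := M) 2 two_ne_zero
      push_cast at this
      exact this
    rw [ln_mul _ _ two_ne_zero hv0, e2]
    linarith
  unfold ln at h4
  unfold ln
  linarith

theorem sqrts (K : Type) [Field K] [NumberField K] (m : ℕ) (a : Fin m → 𝓞 K)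
    (ha : ∀ i, a i ≠ 0) :
    ∃ (L : Type) (_ : Field L) (_ : NumberField L) (_ : Algebra K L) (b : Fin m → L),
      (∀ i, b i ^ 2 = algebraMap K L (a i : K)) ∧ finrank K L ≤ 2 ^ m ∧
      ld L ≤ ld K + ∑ i, (Real.log 2 + ln (a i : K) / 2) := by
  induction m with
  | zero =>
    refine ⟨K, inferInstance, inferInstance, inferInstance, fun i => i.elim0, fun i => i.elim0,
      ?_, ?_⟩
    · rw [finrank_self, pow_zero]
    · simp
  | succ m ih =>
    obtain ⟨L, iF, iN, iA, b, h1, h2, h3⟩ := ih (fun i => a i.castSucc) (fun i => ha _)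
    obtain ⟨σ⟩ : Nonempty (L →+* ℂ) := inferInstance
    have hint : IsIntegral ℤ (algebraMap K L (a (Fin.last m) : K)) :=
      isIntegral_map _ (a (Fin.last m)).2
    set u : 𝓞 L := ⟨algebraMap K L (a (Fin.last m) : K), hint⟩ with hu
    have huv : (u : L) = algebraMap K L (a (Fin.last m) : K) := rfl
    have hu0 : u ≠ 0 := by
      intro h
      have h' : algebraMap K L (a (Fin.last m) : K) = 0 := by rw [← huv, h]; rfl
      rw [FaithfulSMul.algebraMap_eq_zero_iff] at h'
      exact ha _ (RingOfIntegers.coe_eq_zero_iff.1 h')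
    obtain ⟨z, hz⟩ := IsAlgClosed.exists_pow_nat_eq (σ (u : L)) (n := 2) two_pos
    obtain ⟨M, jF, jN, jA, τ, c, g1, g2, g3, g4, g5⟩ := ext_sqrt L σ (u : L) z hz
    let _ : Algebra K M := ((algebraMap L M).comp (algebraMap K L)).toAlgebra
    have hst : IsScalarTower K L M := IsScalarTower.of_algebraMap_eq (fun x => rfl)
    refine ⟨M, jF, jN, inferInstance, Fin.snoc (fun i => algebraMap L M (b i)) c, ?_, ?_, ?_⟩
    · intro i
      refine Fin.lastCases ?_ (fun i => ?_) i
      · rw [Fin.snoc_last, g3]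
        rfl
      · rw [Fin.snoc_castSucc, ← map_pow, h1]
        rfl
    · rw [← finrank_mul_finrank K L M, pow_succ]
      exact Nat.mul_le_mul h2 g5
    · have h4 := ld_sqrt' hu0 g3 g4
      have h5 : ln (u : L) = ln (a (Fin.last m) : K) := by rw [huv, ln_ext]
      rw [h5] at h4
      rw [Fin.sum_univ_castSucc]
      linarith

end Pool.Agent.J4.H47.SC
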