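import Mathlib
import Pool.Agent.J4.H47.SC.Curve
import Pool.Agent.J4.H47.SC.Sqrts

set_option autoImplicit false

/-!
Points of products of hyperelliptic curves with small discriminant.
-/

namespace Pool.Agent.J4.H47.SC

open Height Module NumberField Polynomial Pool.Agent.Y733.VR

/-- a set of numbers of unbounded height is infinite -/
lemma infinite_of_unbounded {K : Type} [Field K] [NumberField K] (T : Set K)
    (h : ∀ B : ℝ, ∃ x ∈ T, B ≤ hh x) : T.Infinite := by
  intro hfin
  obtain ⟨x, hx, hB⟩ := h (∑ y ∈ hfin.toFinset, hh y + 1)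
  have := Finset.single_le_sum (f := fun y => hh y) (fun y _ => hh_nonneg y)
    (hfin.mem_toFinset.2 hx)
  linarith

theorem main (k : Type) [Field k] [NumberField k] (n : ℕ) (f : Fin n → k[X])
    (hsep : ∀ i, (f i).Separable) (hdeg : ∀ i, 5 ≤ (f i).natDegree) :
    ∃ (r : ℕ) (C₀ : ℝ), ∀ (G : MvPolynomial (Fin n) k), G ≠ 0 → ∀ B : ℝ,
      ∃ (F : Type) (_ : Field F) (_ : NumberField F) (_ : Algebra k F) (x y : Fin n → F),
        finrank k F ≤ r ∧ IntermediateField.adjoin k (Set.range x ∪ Set.range y) = ⊤ ∧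
        (∀ i, y i ^ 2 = aeval (x i) (f i)) ∧ MvPolynomial.aeval x G ≠ 0 ∧
        (∀ i, B ≤ hh (x i)) ∧
        ld F ≤ ∑ i, ((((f i).natDegree - 1) / 2 - 1 : ℕ) : ℝ) * hh (x i) + C₀ := by
  classical
  set P : k[X] := ∏ i, f i with hP
  have hf0 : ∀ i, f i ≠ 0 := fun i => (hsep i).ne_zero
  have hP0 : P ≠ 0 := Finset.prod_ne_zero_iff.2 fun i _ => hf0 i
  let K : Type := P.SplittingField
  have hNF : NumberField K := NumberField.of_module_finite k K
  have hspl : ∀ i, ((f i).map (algebraMap k K)).Splits := by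
    intro i
    have h1 : (P.map (algebraMap k K)).Splits := SplittingField.splits P
    have hd : (f i).map (algebraMap k K) ∣ P.map (algebraMap k K) :=
      Polynomial.map_dvd _ (Finset.dvd_prod_of_mem f (Finset.mem_univ i))
    exact h1.of_dvd (Polynomial.map_ne_zero hP0) hd
  choose C hC using fun i => curve ((f i).map (algebraMap k K)) ((hsep i).map) (hspl i)
    (by rw [natDegree_map]; exact hdeg i)
  simp only [natDegree_map] at hC
  refine ⟨finrank k K * 2 ^ n, ld K + ∑ i, (Real.log 2 + C i / 2), fun G hG B => ?_⟩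
  let T : Fin n → Set K := fun i => {x | ∃ (a : 𝓞 K) (s : K), B ≤ hh x ∧ a ≠ 0 ∧ s ≠ 0 ∧
      ((f i).map (algebraMap k K)).eval x = (a : K) * s ^ 2 ∧
      ln (a : K) ≤ 2 * ((((f i).natDegree - 1) / 2 - 1 : ℕ) : ℝ) * hh x + C i}
  have hT : ∀ i, (T i).Infinite := by
    intro i
    refine infinite_of_unbounded _ fun B' => ?_
    obtain ⟨x, a, s, h1, h2⟩ := hC i (max B B')
    exact ⟨x, ⟨a, s, (le_max_left _ _).trans h1, h2⟩, (le_max_right _ _).trans h1⟩
  obtain ⟨x, hxT, hxG⟩ : ∃ x ∈ Set.pi Set.univ T,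
      MvPolynomial.eval x (G.map (algebraMap k K)) ≠ 0 := by
    by_contra hcon
    push Not at hcon
    have h0 : G.map (algebraMap k K) = 0 := MvPolynomial.funext_set T hT fun x hx => by
      rw [hcon x hx, map_zero]
    exact hG ((map_eq_zero_iff _ (MvPolynomial.map_injective _ (algebraMap k K).injective)).1 h0)
  have hx : ∀ i, ∃ (a : 𝓞 K) (s : K), B ≤ hh (x i) ∧ a ≠ 0 ∧ s ≠ 0 ∧
      ((f i).map (algebraMap k K)).eval (x i) = (a : K) * s ^ 2 ∧
      ln (a : K) ≤ 2 * ((((f i).natDegree - 1) / 2 - 1 : ℕ) : ℝ) * hh (x i) + C i :=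
    fun i => hxT i (Set.mem_univ i)
  choose a s hB ha hs heq hln using hx
  obtain ⟨L, iF, iN, iA, b, hb, hfr, hld⟩ := sqrts K n a ha
  let _ : Algebra k L := ((algebraMap K L).comp (algebraMap k K)).toAlgebra
  have hst : IsScalarTower k K L := IsScalarTower.of_algebraMap_eq (fun x => rfl)
  let x' : Fin n → L := fun i => algebraMap K L (x i)
  let y' : Fin n → L := fun i => algebraMap K L (s i) * b i
  let E : IntermediateField k L := IntermediateField.adjoin k (Set.range x' ∪ Set.range y')
  have hxE : ∀ i, x' i ∈ E := fun i =>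
    IntermediateField.subset_adjoin k _ (Or.inl ⟨i, rfl⟩)
  have hyE : ∀ i, y' i ∈ E := fun i =>
    IntermediateField.subset_adjoin k _ (Or.inr ⟨i, rfl⟩)
  have : FiniteDimensional k L := inferInstance
  have hENF : NumberField E := NumberField.of_module_finite k E
  have hhE : ∀ i, hh (⟨x' i, hxE i⟩ : E) = hh (x i) := by
    intro i
    rw [← hh_ext L (⟨x' i, hxE i⟩ : E), ← hh_ext L (x i)]
    rfl
  refine ⟨E, inferInstance, hENF, inferInstance, fun i => ⟨x' i, hxE i⟩, fun i => ⟨y' i, hyE i⟩,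
    ?_, ?_, ?_, ?_, ?_, ?_⟩
  · have h1 : finrank k E ≤ finrank k L := by
      have h2 := finrank_mul_finrank k E L
      have h3 : 0 < finrank E L := finrank_pos
      calc finrank k E = finrank k E * 1 := (mul_one _).symm
        _ ≤ finrank k E * finrank E L := Nat.mul_le_mul_left _ h3
        _ = finrank k L := h2
    refine h1.trans ?_
    rw [← finrank_mul_finrank k K L]
    exact Nat.mul_le_mul_left _ hfr
  · refine adjoin_self_top (K := k) (Set.range x' ∪ Set.range y') _ ?_
    rw [Set.image_union, ← Set.range_comp, ← Set.range_comp]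
    rfl
  · intro i
    apply Subtype.ext
    have e1 : ((⟨y' i, hyE i⟩ : E) ^ 2 : E) = (⟨y' i ^ 2, pow_mem (hyE i) 2⟩ : E) := rfl
    have e2 : ((aeval (⟨x' i, hxE i⟩ : E) (f i) : E) : L) = aeval (x' i) (f i) := by
      have := Polynomial.aeval_algebraMap_apply L (⟨x' i, hxE i⟩ : E) (f i)
      exact this.symm
    rw [e1, e2]
    change (algebraMap K L (s i) * b i) ^ 2 = _
    have e3 : aeval (x' i) (f i) = algebraMap K L (((f i).map (algebraMap k K)).eval (x i)) := by
      change aeval (algebraMap K L (x i)) (f i) = _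
      rw [Polynomial.aeval_algebraMap_apply, eval_map_algebraMap]
    rw [e3, heq, mul_pow, hb, map_mul, map_pow]
    ring
  · intro h0
    apply hxG
    have h1 : MvPolynomial.aeval x' G = 0 := by
      have := MvPolynomial.aeval_algebraMap_apply L (fun i => (⟨x' i, hxE i⟩ : E)) G
      rw [h0, map_zero] at this
      exact this
    have h2 : MvPolynomial.aeval x' G = algebraMap K L (MvPolynomial.aeval x G) :=
      MvPolynomial.aeval_algebraMap_apply L x G
    rw [h2, FaithfulSMul.algebraMap_eq_zero_iff] at h1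
    rw [MvPolynomial.eval_map]
    exact h1
  · intro i
    rw [hhE i]
    exact hB i
  · have h1 : ld E ≤ ld L := ld_mono E L
    refine (h1.trans hld).trans ?_
    have h2 : ∀ i, Real.log 2 + ln (a i : K) / 2 ≤
        ((((f i).natDegree - 1) / 2 - 1 : ℕ) : ℝ) * hh (⟨x' i, hxE i⟩ : E) +
          (Real.log 2 + C i / 2) := by
      intro i
      rw [hhE i]
      have := hln i
      linarith
    have h3 := Finset.sum_le_sum fun i (_ : i ∈ Finset.univ) => h2 i
    have h4 := Finset.sum_add_distrib (s := (Finset.univ : Finset (Fin n)))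
      (f := fun i => ((((f i).natDegree - 1) / 2 - 1 : ℕ) : ℝ) * hh (⟨x' i, hxE i⟩ : E))
      (g := fun i => Real.log 2 + C i / 2)
    rw [h4] at h3
    linarith

end Pool.Agent.J4.H47.SC
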